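import Mathlib

/-!
# Almost covers of the cube whose positive parts form an almost 3-cover: peeling

`b r : ι → ℝ` are the rows (the hyperplanes `b r · x = 1`); a set `U` of coordinates is a
vertex of the cube.  `ps b r U` is the sum over `U` of the positive parts, `K b U` the rows with
`ps b r U = 1`, `alive b U` the rows which cover a vertex contained in `U`.
-/

set_option autoImplicit false
set_option linter.unusedSectionVars false

open Finset

namespace Pool.Agent.Helper13.NC

noncomputable section

variable {ι R : Type} [DecidableEq ι] [Fintype R] [DecidableEq R]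

/-- the sum of the positive parts -/
def ps (b : R → ι → ℝ) (r : R) (U : Finset ι) : ℝ := ∑ i ∈ U, max (b r i) 0

/-- the coordinates in `U` with positive coefficient -/
def sp (b : R → ι → ℝ) (r : R) (U : Finset ι) : Finset ι := U.filter (fun i => 0 < b r i)

/-- the tight rows -/
def K (b : R → ι → ℝ) (U : Finset ι) : Finset R := univ.filter (fun r => ps b r U = 1)

/-- the rows covering a vertex inside `U` -/
def alive (b : R → ι → ℝ) (U : Finset ι) : Finset R :=
  univ.filter (fun r => ∃ X ⊆ U, ∑ i ∈ X, b r i = 1)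

variable {b : R → ι → ℝ}

omit [Fintype R] [DecidableEq R] [DecidableEq ι] in
theorem ps_mono (r : R) {U V : Finset ι} (h : U ⊆ V) : ps b r U ≤ ps b r V :=
  Finset.sum_le_sum_of_subset_of_nonneg h fun _ _ _ => le_max_right _ _

omit [Fintype R] [DecidableEq R] [DecidableEq ι] in
theorem sum_le_ps (r : R) (U : Finset ι) : ∑ i ∈ U, b r i ≤ ps b r U :=
  Finset.sum_le_sum fun _ _ => le_max_left _ _

omit [Fintype R] [DecidableEq R] in
theorem ps_eq_of_sp_subset (r : R) {U V : Finset ι} (hUV : U ⊆ V) (h : sp b r V ⊆ U) :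
    ps b r U = ps b r V := by
  refine Finset.sum_subset hUV fun i hi hiU => ?_
  rcases le_or_gt (b r i) 0 with h0 | h0
  · exact max_eq_right h0
  · exact absurd (h (Finset.mem_filter.mpr ⟨hi, h0⟩)) hiU

omit [Fintype R] [DecidableEq R] in
theorem sp_eq_of_sp_subset (r : R) {U V : Finset ι} (hUV : U ⊆ V) (h : sp b r V ⊆ U) :
    sp b r U = sp b r V := by
  ext i
  constructor
  · intro hi
    exact Finset.mem_filter.mpr ⟨hUV (Finset.mem_filter.mp hi).1, (Finset.mem_filter.mp hi).2⟩
  · intro hi
    exact Finset.mem_filter.mpr ⟨h hi, (Finset.mem_filter.mp hi).2⟩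

omit [Fintype R] [DecidableEq R] in
/-- if `V ⊆ W` and both positive sums agree, the support is inside `V` -/
theorem sp_subset_of_ps_eq (r : R) {U V : Finset ι} (hUV : U ⊆ V) (h : ps b r U = ps b r V) :
    sp b r V ⊆ U := by
  intro i hi
  by_contra hiU
  obtain ⟨hiV, hpos⟩ := Finset.mem_filter.mp hi
  have h1 : ps b r (insert i U) ≤ ps b r V :=
    ps_mono r (Finset.insert_subset hiV hUV)
  have h2 : ps b r (insert i U) = max (b r i) 0 + ps b r U := Finset.sum_insert hiU
  have h3 : 0 < max (b r i) 0 := lt_max_of_lt_left hpos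
  linarith

omit [Fintype R] [DecidableEq R] [DecidableEq ι] in
theorem sp_nonempty {r : R} {U : Finset ι} (h : ps b r U = 1) : (sp b r U).Nonempty := by
  by_contra hne
  rw [Finset.not_nonempty_iff_eq_empty] at hne
  have h0 : ps b r U = 0 := by
    refine Finset.sum_eq_zero fun i hi => ?_
    rcases le_or_gt (b r i) 0 with h1 | h1
    · exact max_eq_right h1
    · have : i ∈ sp b r U := Finset.mem_filter.mpr ⟨hi, h1⟩
      rw [hne] at this
      exact absurd this (Finset.notMem_empty i)
  rw [h0] at h
  exact zero_ne_one h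

omit [DecidableEq R] [DecidableEq ι] in
theorem mem_K {r : R} {U : Finset ι} : r ∈ K b U ↔ ps b r U = 1 := by simp [K]

omit [DecidableEq R] [DecidableEq ι] in
theorem mem_alive {r : R} {U : Finset ι} :
    r ∈ alive b U ↔ ∃ X ⊆ U, ∑ i ∈ X, b r i = 1 := by simp [alive]

omit [DecidableEq R] [DecidableEq ι] in
theorem alive_mono {U V : Finset ι} (h : U ⊆ V) : alive b U ⊆ alive b V := by
  intro r hr
  obtain ⟨X, hX, h1⟩ := mem_alive.mp hr
  exact mem_alive.mpr ⟨X, hX.trans h, h1⟩

omit [DecidableEq R] [DecidableEq ι] in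
theorem K_subset_alive (U : Finset ι) : K b U ⊆ alive b U := by
  intro r hr
  rw [mem_K] at hr
  refine mem_alive.mpr ⟨sp b r U, Finset.filter_subset _ _, ?_⟩
  rw [← hr, ps]
  rw [sp, Finset.sum_filter]
  refine Finset.sum_congr rfl fun i _ => ?_
  split_ifs with h
  · exact (max_eq_left h.le).symm
  · exact (max_eq_right (not_lt.mp h)).symm

omit [DecidableEq R] in
theorem not_alive {r : R} {U : Finset ι} {i : ι} (hr : r ∈ K b U) (hi : i ∈ sp b r U) :
    r ∉ alive b (U.erase i) := by
  intro h
  obtain ⟨X, hX, h1⟩ := mem_alive.mp h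
  have h2 : ps b r X ≤ ps b r (U.erase i) := ps_mono r hX
  have h3 := sum_le_ps (b := b) r X
  obtain ⟨hiU, hpos⟩ := Finset.mem_filter.mp hi
  have h4 : max (b r i) 0 + ps b r (U.erase i) = ps b r U :=
    Finset.add_sum_erase U (fun i => max (b r i) 0) hiU
  rw [mem_K] at hr
  have h5 : 0 < max (b r i) 0 := lt_max_of_lt_left hpos
  linarith

/-- the hypothesis on the cover -/
structure IsCov (k : ℕ) (b : R → ι → ℝ) (W : Finset ι) : Prop where
  cov : ∀ X ⊆ W, X.Nonempty → k ≤ (univ.filter (fun r => ∑ i ∈ X, b r i = 1)).card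
  pos : ∀ X ⊆ W, X.Nonempty → 3 ≤ (K b X).card

omit [DecidableEq R] [DecidableEq ι] in
theorem IsCov.mono {k : ℕ} {W V : Finset ι} (h : IsCov k b W) (hV : V ⊆ W) : IsCov k b V :=
  ⟨fun X hX => h.cov X (hX.trans hV), fun X hX => h.pos X (hX.trans hV)⟩

/-- the context: `s` is the excess of large covers -/
structure Ctx (k n0 s : ℕ) (b : R → ι → ℝ) (W : Finset ι) : Prop where
  cov : IsCov k b W
  one : 1 ≤ n0
  low : ∀ U ⊆ W, n0 ≤ U.card → U.card + s ≤ (alive b U).card

/-- optimal subcubes -/
structure Good (n0 s : ℕ) (b : R → ι → ℝ) (W U : Finset ι) : Prop where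
  sub : U ⊆ W
  big : n0 ≤ U.card
  up : (alive b U).card ≤ U.card + s

/-- the canonical element -/
def pk [Nonempty ι] (S : Finset ι) : ι := Classical.epsilon (fun i => i ∈ S)

omit [DecidableEq ι] in
theorem pk_mem [Nonempty ι] {S : Finset ι} (h : S.Nonempty) : pk S ∈ S :=
  Classical.epsilon_spec (p := fun i => i ∈ S) h

/-- firing a tight row -/
def mv [Nonempty ι] (b : R → ι → ℝ) (r : R) (U : Finset ι) : Finset ι := U.erase (pk (sp b r U))

section

variable {k n0 s : ℕ} {W : Finset ι}

theorem disj (hC : Ctx k n0 s b W) {U : Finset ι} (hU : Good n0 s b W U) (hbig : n0 < U.card)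
    {r r' : R} (hne : r ≠ r') (hr : r ∈ K b U) (hr' : r' ∈ K b U) {i : ι} (hi : i ∈ sp b r U) :
    i ∉ sp b r' U := by
  intro hi'
  have hiU : i ∈ U := (Finset.mem_filter.mp hi).1
  have h1 : n0 ≤ (U.erase i).card := by
    rw [Finset.card_erase_of_mem hiU]; omega
  have h2 := hC.low _ ((Finset.erase_subset i U).trans hU.sub) h1
  rw [Finset.card_erase_of_mem hiU] at h2
  have h3 : alive b (U.erase i) ⊆ ((alive b U).erase r).erase r' := by
    intro q hq
    rw [Finset.mem_erase, Finset.mem_erase]
    refine ⟨?_, ?_, alive_mono (Finset.erase_subset i U) hq⟩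
    · rintro rfl
      exact not_alive hr' hi' hq
    · rintro rfl
      exact not_alive hr hi hq
  have h4 := Finset.card_le_card h3
  rw [Finset.card_erase_of_mem, Finset.card_erase_of_mem (K_subset_alive _ hr)] at h4
  · have h5 := hU.up
    have h6 : 0 < (alive b U).card := Finset.card_pos.mpr ⟨r, K_subset_alive _ hr⟩
    have h7 : 2 ≤ (alive b U).card := by
      have : ({r, r'} : Finset R) ⊆ alive b U := by
        intro q hq
        rw [Finset.mem_insert, Finset.mem_singleton] at hq
        rcases hq with rfl | rfl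
        · exact K_subset_alive _ hr
        · exact K_subset_alive _ hr'
      have h8 := Finset.card_le_card this
      rwa [Finset.card_pair hne] at h8
    omega
  · rw [Finset.mem_erase]
    exact ⟨hne.symm, K_subset_alive _ hr'⟩

theorem card_alive_erase {U : Finset ι} {r : R} {i : ι} (hr : r ∈ K b U) (hi : i ∈ sp b r U) :
    (alive b (U.erase i)).card + 1 ≤ (alive b U).card := by
  have h3 : alive b (U.erase i) ⊆ (alive b U).erase r := by
    intro q hq
    rw [Finset.mem_erase]
    refine ⟨?_, alive_mono (Finset.erase_subset i U) hq⟩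
    rintro rfl
    exact not_alive hr hi hq
  have h4 := Finset.card_le_card h3
  rw [Finset.card_erase_of_mem (K_subset_alive _ hr)] at h4
  have h6 : 0 < (alive b U).card := Finset.card_pos.mpr ⟨r, K_subset_alive _ hr⟩
  omega

theorem Good.erase {U : Finset ι} (hU : Good n0 s b W U) (hbig : n0 < U.card)
    {r : R} (hr : r ∈ K b U) {i : ι} (hi : i ∈ sp b r U) : Good n0 s b W (U.erase i) := by
  have hiU : i ∈ U := (Finset.mem_filter.mp hi).1
  refine ⟨(Finset.erase_subset i U).trans hU.sub, ?_, ?_⟩
  · rw [Finset.card_erase_of_mem hiU]; omega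
  · have := card_alive_erase hr hi
    have h2 := hU.up
    rw [Finset.card_erase_of_mem hiU]
    omega

variable [Nonempty ι]

omit [DecidableEq R] [DecidableEq ι] in
theorem pk_sp_mem {U : Finset ι} {r : R} (hr : r ∈ K b U) : pk (sp b r U) ∈ sp b r U :=
  pk_mem (sp_nonempty (mem_K.mp hr))

omit [DecidableEq R] [DecidableEq ι] in
theorem pk_sp_mem' {U : Finset ι} {r : R} (hr : r ∈ K b U) : pk (sp b r U) ∈ U :=
  (Finset.mem_filter.mp (pk_sp_mem hr)).1

omit [DecidableEq R] in
theorem card_mv {U : Finset ι} {r : R} (hr : r ∈ K b U) : (mv b r U).card + 1 = U.card := by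
  rw [mv, Finset.card_erase_add_one (pk_sp_mem' hr)]

omit [Fintype R] [DecidableEq R] in
theorem mv_subset (U : Finset ι) (r : R) : mv b r U ⊆ U := Finset.erase_subset _ _

theorem keep (hC : Ctx k n0 s b W) {U : Finset ι} (hU : Good n0 s b W U) (hbig : n0 < U.card)
    {r q : R} (hne : r ≠ q) (hr : r ∈ K b U) (hq : q ∈ K b U) :
    r ∈ K b (mv b q U) ∧ sp b r (mv b q U) = sp b r U := by
  have h1 : pk (sp b q U) ∉ sp b r U := disj hC hU hbig hne.symm hq hr (pk_sp_mem hq)
  have h2 : sp b r U ⊆ mv b q U := by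
    intro i hi
    rw [mv, Finset.mem_erase]
    refine ⟨?_, (Finset.mem_filter.mp hi).1⟩
    rintro rfl
    exact h1 hi
  exact ⟨mem_K.mpr ((ps_eq_of_sp_subset r (mv_subset _ _) h2).trans (mem_K.mp hr)),
    sp_eq_of_sp_subset r (mv_subset _ _) h2⟩

/-- `U` is transformed into `X` by firing the rows in the list -/
inductive Fire (b : R → ι → ℝ) : List R → Finset ι → Finset ι → Prop
  | nil (U : Finset ι) : Fire b [] U U
  | cons {r : R} {L : List R} {U X : Finset ι} (hr : r ∈ K b U) (h : Fire b L (mv b r U) X) :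
      Fire b (r :: L) U X

omit [DecidableEq R] in
theorem Fire.subset {L : List R} {U X : Finset ι} (h : Fire b L U X) : X ⊆ U := by
  induction h with
  | nil U => exact Finset.Subset.refl _
  | cons hr h ih => exact ih.trans (mv_subset _ _)

omit [DecidableEq R] in
theorem Fire.card {L : List R} {U X : Finset ι} (h : Fire b L U X) :
    X.card + L.length = U.card := by
  induction h with
  | nil U => simp
  | @cons r L U X hr h ih =>
    have := card_mv hr
    rw [List.length_cons]
    omega

omit [DecidableEq R] in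
theorem Fire.append {L L' : List R} {U X Y : Finset ι} (h : Fire b L U X) (h' : Fire b L' X Y) :
    Fire b (L ++ L') U Y := by
  induction h with
  | nil U => simpa using h'
  | cons hr h ih => exact Fire.cons hr (ih h')

omit [DecidableEq R] in
theorem Fire.split {L L' : List R} {U Y : Finset ι} (h : Fire b (L ++ L') U Y) :
    ∃ X, Fire b L U X ∧ Fire b L' X Y := by
  induction L generalizing U with
  | nil => exact ⟨U, Fire.nil U, by simpa using h⟩
  | cons r L ih =>
    rw [List.cons_append] at h
    cases h with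
    | cons hr h =>
      obtain ⟨X, h1, h2⟩ := ih h
      exact ⟨X, Fire.cons hr h1, h2⟩

omit [DecidableEq R] in
theorem Fire.snoc {L : List R} {r : R} {U Y : Finset ι} (h : Fire b (L ++ [r]) U Y) :
    ∃ X, Fire b L U X ∧ r ∈ K b X ∧ Y = mv b r X := by
  obtain ⟨X, h1, h2⟩ := h.split
  cases h2 with
  | cons hr h =>
    cases h with
    | nil => exact ⟨X, h1, hr, rfl⟩

omit [DecidableEq R] in
theorem Fire.good {L : List R} {U X : Finset ι} (h : Fire b L U X)
    (hU : Good n0 s b W U) (hX : n0 ≤ X.card) : Good n0 s b W X := by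
  classical
  induction h with
  | nil U => exact hU
  | @cons r L U X hr h ih =>
    have h1 := h.card
    have h2 := card_mv hr
    exact ih (hU.erase (by omega) hr (pk_sp_mem hr)) hX

theorem Fire.keep (hC : Ctx k n0 s b W) {L : List R} {U X : Finset ι} (h : Fire b L U X)
    (hU : Good n0 s b W U) (hX : n0 ≤ X.card) {r : R} (hr : r ∈ K b U) (hrL : r ∉ L) :
    r ∈ K b X ∧ sp b r X = sp b r U := by
  induction h with
  | nil U => exact ⟨hr, rfl⟩
  | @cons q L U X hq h ih =>
    have h1 := h.card
    have h2 := card_mv hq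
    rw [List.mem_cons, not_or] at hrL
    have h3 := Pool.Agent.Helper13.NC.keep hC hU (by omega) hrL.1 hr hq
    have h4 := ih (hU.erase (by omega) hq (pk_sp_mem hq)) hX h3.1 hrL.2
    exact ⟨h4.1, h4.2.trans h3.2⟩

/-- a fired row is dead afterwards -/
theorem Fire.notMem {L : List R} {r : R} {U X : Finset ι} (hr : r ∈ K b U)
    (h : Fire b L (mv b r U) X) : r ∉ L := by
  intro hrL
  obtain ⟨L1, L2, rfl⟩ := List.append_of_mem hrL
  obtain ⟨Y, h1, h2⟩ := h.split
  cases h2 with
  | cons hr' h3 =>
    exact not_alive hr (pk_sp_mem hr) (alive_mono h1.subset (K_subset_alive _ hr'))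

theorem Fire.nodup {L : List R} {U X : Finset ι} (h : Fire b L U X) : L.Nodup := by
  induction h with
  | nil U => exact List.nodup_nil
  | cons hr h ih => exact List.nodup_cons.mpr ⟨h.notMem hr, ih⟩

theorem Fire.swap (hC : Ctx k n0 s b W) {L : List R} {U Y : Finset ι} (h : Fire b L U Y)
    (hU : Good n0 s b W U) {r : R} (hr : r ∈ K b U)
    (hY : n0 ≤ (Y.erase (pk (sp b r U))).card) :
    Fire b (L.erase r) (mv b r U) (Y.erase (pk (sp b r U))) := by
  induction h with
  | nil U => exact Fire.nil _
  | @cons q L U Y hq h ih =>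
    have hcY : (Y.erase (pk (sp b r U))).card ≤ Y.card := Finset.card_le_card (Finset.erase_subset _ _)
    have h1 := h.card
    have h2 := card_mv hq
    rcases eq_or_ne q r with rfl | hne
    · rw [List.erase_cons_head]
      have h3 : pk (sp b q U) ∉ Y := fun hm =>
        absurd (h.subset hm) (by rw [mv]; exact Finset.notMem_erase _ _)
      rw [Finset.erase_eq_of_notMem h3]
      exact h
    · rw [List.erase_cons_tail (by simpa using hne)]
      have h3 := Pool.Agent.Helper13.NC.keep hC hU (by omega) hne.symm hr hq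
      have h4 := Pool.Agent.Helper13.NC.keep hC hU (by omega) hne hq hr
      have h5 := ih (hU.erase (by omega) hq (pk_sp_mem hq)) h3.1 (by rw [h3.2]; exact hY)
      rw [h3.2] at h5
      refine Fire.cons h4.1 ?_
      have h6 : mv b q (mv b r U) = mv b r (mv b q U) := by
        rw [mv, mv, mv, mv] at *
        rw [h4.2, h3.2, Finset.erase_right_comm]
      rw [h6]
      exact h5

theorem Fire.merge (hC : Ctx k n0 s b W) {L L' : List R} {U X Y : Finset ι} (h : Fire b L U X)
    (h' : Fire b L' U Y) (hU : Good n0 s b W U) (hXY : n0 ≤ (X ∩ Y).card) :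
    Fire b (L'.diff L) X (X ∩ Y) := by
  induction h generalizing L' Y with
  | nil U =>
    rw [Finset.inter_eq_right.mpr h'.subset]
    simpa using h'
  | @cons r L U X hr h ih =>
    have hX : pk (sp b r U) ∉ X := fun hm =>
      absurd (h.subset hm) (by rw [mv]; exact Finset.notMem_erase _ _)
    have hXY' : X ∩ Y.erase (pk (sp b r U)) = X ∩ Y := by
      ext i
      simp only [Finset.mem_inter, Finset.mem_erase]
      constructor
      · rintro ⟨h1, -, h2⟩; exact ⟨h1, h2⟩
      · rintro ⟨h1, h2⟩
        refine ⟨h1, ?_, h2⟩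
        rintro rfl
        exact hX h1
    have h1 : n0 ≤ (Y.erase (pk (sp b r U))).card := by
      rw [← hXY'] at hXY
      exact hXY.trans (Finset.card_le_card Finset.inter_subset_right)
    have h2 := h'.swap hC hU hr h1
    have h3 := h.card
    have h4 := card_mv hr
    have h5 : (X ∩ Y).card ≤ X.card := Finset.card_le_card Finset.inter_subset_left
    have h6 := ih h2 (hU.erase (by omega) hr (pk_sp_mem hr)) (by rw [hXY']; exact hXY)
    rw [hXY'] at h6
    rw [List.diff_cons]
    exact h6

end

end

end Pool.Agent.Helper13.NC
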