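import Pool.Agent.Helper13.NC.Star
import Pool.Agent.Helper66.AC.Main

/-!
# Almost `k`-covers of the cube whose positive parts form an almost 3-cover
-/

set_option autoImplicit false
set_option linter.unusedSectionVars false

open Finset

namespace Pool.Agent.Helper13.NC

noncomputable section

/-- all covers of at least `m` coordinates have excess at least `c` -/
def Ex (k m c : ℕ) : Prop := ∀ (ι R : Type) [DecidableEq ι] [Fintype R] [DecidableEq R]
  (b : R → ι → ℝ) (W : Finset ι), IsCov k b W → m ≤ W.card → W.card + c ≤ (alive b W).card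

theorem Ex.mono {k m m' c c' : ℕ} (h : Ex k m c) (hm : m ≤ m') (hc : c' ≤ c) : Ex k m' c' := by
  intro ι R _ _ _ b W hW hcard
  have := h ι R b W hW (hm.trans hcard)
  omega

theorem Ex_zero (k : ℕ) : Ex k 0 0 := by
  intro ι R _ _ _ b W
  induction W using Finset.strongInduction with
  | H W ih =>
    intro hW _
    rcases Finset.eq_empty_or_nonempty W with rfl | hne
    · simp
    · have h3 := hW.pos W (Finset.Subset.refl _) hne
      obtain ⟨r, hr⟩ := Finset.card_pos.mp (show 0 < (K b W).card by omega)
      obtain ⟨i, hi⟩ := sp_nonempty (mem_K.mp hr)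
      have hiW : i ∈ W := (Finset.mem_filter.mp hi).1
      have h4 := ih (W.erase i) (Finset.erase_ssubset hiW)
        (hW.mono (Finset.erase_subset _ _)) (Nat.zero_le _)
      have h5 := card_alive_erase hr hi
      have h6 := Finset.card_erase_add_one hiW
      omega

/-- a tight row covers only sets containing its support -/
theorem sp_subset_of_sum {ι R : Type} [DecidableEq ι] [Fintype R] [DecidableEq R]
    {b : R → ι → ℝ} {G X : Finset ι} {r : R} (hr : r ∈ K b G) (hX : X ⊆ G)
    (h : ∑ i ∈ X, b r i = 1) : sp b r G ⊆ X := by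
  refine sp_subset_of_ps_eq r hX (le_antisymm (ps_mono r hX) ?_)
  rw [mem_K.mp hr, ← h]
  exact sum_le_ps r X

theorem no_good (k n0 s : ℕ) (hk : 3 ≤ k) (hn0 : 1 ≤ n0) (hs : s < k.choose 2) :
    ∃ w : ℕ, ∀ {ι R : Type} [DecidableEq ι] [Fintype R] [DecidableEq R]
    {b : R → ι → ℝ} {W : Finset ι}, Ctx k n0 s b W → Good n0 s b W W → ¬ w ≤ W.card := by
  classical
  obtain ⟨n1, hn1⟩ := Pool.Agent.Helper66.AC.main k (mP n0 (n0 + 3) + s) hk
  set t := max 2 n1 with ht
  obtain ⟨w, hw⟩ := exists_star n0 t (le_max_left _ _)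
  refine ⟨w, ?_⟩
  intro ι R _ _ _ b W hC hW hcard
  have hne : W.Nonempty := Finset.card_pos.mp (lt_of_lt_of_le hn0 hW.big)
  haveI : Nonempty ι := ⟨hne.choose⟩
  obtain ⟨G, hG, hG1, hG2, Q, hQ, hQc⟩ := hw hC hW hcard
  -- the modified cover
  let q : {r // r ∈ alive b G} → Option {i // i ∈ G} := fun r =>
    if h : r.1 ∈ Q then some ⟨pk (sp b r.1 G), pk_sp_mem' (hQ h)⟩ else none
  let a : {r // r ∈ alive b G} → Option {i // i ∈ G} → ℝ := fun r o =>
    if r.1 ∈ Q then (if o = none then 1 else 0) + (if o = q r then 1 else 0)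
    else match o with
      | none => 2 - ∑ i ∈ G, b r.1 i
      | some i => b r.1 i.1
  have hedge : ∀ r : {r // r ∈ alive b G}, r.1 ∈ Q → ∀ X : Finset (Option {i // i ∈ G}),
      ∑ v ∈ X, a r v = (if (none : Option {i // i ∈ G}) ∈ X then 1 else 0) +
        (if q r ∈ X then 1 else 0) := by
    intro r hr X
    simp only [a, if_pos hr]
    rw [Finset.sum_add_distrib, Finset.sum_ite_eq', Finset.sum_ite_eq']
  have htot : ∀ r, ∑ v, a r v = 2 := by
    intro r
    by_cases hr : r.1 ∈ Q
    · rw [hedge r hr]; simp; norm_num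
    · simp only [a, if_neg hr]
      rw [Fintype.sum_option]
      have : ∑ i : {i // i ∈ G}, b r.1 i.1 = ∑ i ∈ G, b r.1 i := by
        rw [← Finset.sum_attach G]; rfl
      rw [this]; ring
  have hnone : ∀ r, r.1 ∉ Q → ∀ X : Finset (Option {i // i ∈ G}), none ∉ X →
      ∑ v ∈ X, a r v = ∑ i ∈ G.attach.filter (fun i => some i ∈ X), b r.1 i.1 := by
    intro r hr X hX
    have h1 : ∑ v ∈ X, a r v = ∑ v : Option {i // i ∈ G}, if v ∈ X then a r v else 0 := by
      rw [Finset.sum_ite_mem, Finset.univ_inter]
    rw [h1, Fintype.sum_option, if_neg hX, zero_add, Finset.sum_filter]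
    refine Finset.sum_congr rfl fun i _ => ?_
    simp only [a, if_neg hr]
  -- covering property for sets not containing the root
  have hcov : ∀ X : Finset (Option {i // i ∈ G}), none ∉ X → X.Nonempty →
      k ≤ (univ.filter (fun r => ∑ v ∈ X, a r v = 1)).card := by
    intro X hX hne
    set X' : Finset ι := (G.attach.filter (fun i => some i ∈ X)).map
      (Function.Embedding.subtype _) with hX'
    have hX'G : X' ⊆ G := by
      intro i hi
      rw [hX', Finset.mem_map] at hi
      obtain ⟨j, -, rfl⟩ := hi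
      exact j.2
    have hX'ne : X'.Nonempty := by
      obtain ⟨o, ho⟩ := hne
      cases o with
      | none => exact absurd ho hX
      | some i =>
        exact ⟨i.1, Finset.mem_map.mpr ⟨i, Finset.mem_filter.mpr ⟨Finset.mem_attach _ _, ho⟩, rfl⟩⟩
    refine (hC.cov.cov X' (hX'G.trans hG.sub) hX'ne).trans ?_
    have hal : ∀ r, ∑ i ∈ X', b r i = 1 → r ∈ alive b G := fun r h =>
      mem_alive.mpr ⟨X', hX'G, h⟩
    have hsub : (univ.filter (fun r => ∑ i ∈ X', b r i = 1)) ⊆
        (univ.filter (fun r : {r // r ∈ alive b G} => ∑ v ∈ X, a r v = 1)).map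
          (Function.Embedding.subtype _) := by
      intro r hr
      rw [Finset.mem_filter] at hr
      rw [Finset.mem_map]
      refine ⟨⟨r, hal r hr.2⟩, ?_, rfl⟩
      rw [Finset.mem_filter]
      refine ⟨Finset.mem_univ _, ?_⟩
      by_cases hrQ : r ∈ Q
      · rw [hedge ⟨r, hal r hr.2⟩ hrQ, if_neg hX, zero_add, if_pos]
        have h1 := sp_subset_of_sum (hQ hrQ) hX'G hr.2
        have h2 := h1 (pk_sp_mem (hQ hrQ))
        rw [hX', Finset.mem_map] at h2
        obtain ⟨j, hj, hj2⟩ := h2
        have h3 : q ⟨r, hal r hr.2⟩ = some j := by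
          simp only [q]
          rw [dif_pos hrQ]
          congr 1
          exact Subtype.ext hj2.symm
        rw [h3]
        exact (Finset.mem_filter.mp hj).2
      · rw [hnone ⟨r, hal r hr.2⟩ hrQ X hX]
        have h5 := hr.2
        rw [hX', Finset.sum_map] at h5
        exact h5
    have h2 := Finset.card_le_card hsub
    rwa [Finset.card_map] at h2
  let A : Pool.Agent.Helper66.AC.Cov (Option {i // i ∈ G}) {r // r ∈ alive b G} k :=
    { a := a
      cov := by
        intro X hne huniv
        by_cases hX : none ∈ X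
        · have h1 := hcov Xᶜ (by simp [hX]) (by
            rw [Finset.nonempty_iff_ne_empty]
            intro h
            exact huniv (Finset.compl_eq_empty_iff X |>.mp h))
          refine h1.trans (Finset.card_le_card ?_)
          intro r hr
          rw [Finset.mem_filter] at hr ⊢
          refine ⟨Finset.mem_univ _, ?_⟩
          have h2 := Finset.sum_add_sum_compl X (a r)
          rw [htot] at h2
          linarith [hr.2]
        · exact hcov X hX hne
      E := univ.filter (fun r => r.1 ∈ Q)
      p := fun _ => none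
      q := q
      edge := by
        intro r hr X
        exact hedge r (Finset.mem_filter.mp hr).2 X }
  have hEc : A.E.card = t := by
    have h1 : A.E.map (Function.Embedding.subtype _) = Q := by
      ext r
      constructor
      · intro h
        obtain ⟨r', hr', rfl⟩ := Finset.mem_map.mp h
        exact (Finset.mem_filter.mp hr').2
      · intro h
        exact Finset.mem_map.mpr ⟨⟨r, K_subset_alive _ (hQ h)⟩,
          Finset.mem_filter.mpr ⟨Finset.mem_univ _, h⟩, rfl⟩
    rw [← hQc, ← h1, Finset.card_map]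
  have hup := hG.up
  have hcardR : Fintype.card {r // r ∈ alive b G} = (alive b G).card := Fintype.card_coe _
  have hcardV : Fintype.card (Option {i // i ∈ G}) = G.card + 1 := by
    rw [Fintype.card_option, Fintype.card_coe]
  have hfin := hn1 A (by
    rw [Finset.card_compl, hcardR, hEc]
    omega) (by
    rw [hcardV]
    have := le_max_right 2 n1
    omega)
  rw [hcardV, hcardR] at hfin
  omega

theorem main (k : ℕ) (hk : 3 ≤ k) : ∃ m, Ex k m (k.choose 2) := by
  classical
  by_contra hcon
  push Not at hcon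
  have hex : ∃ c, ¬ ∃ m, Ex k m c := ⟨k.choose 2, by push Not; exact hcon⟩
  have h1 := Nat.find_spec hex
  set c := Nat.find hex with hc
  have hcle : c ≤ k.choose 2 := Nat.find_min' hex (by push Not; exact hcon)
  have hc0 : c ≠ 0 := by
    intro h
    rw [h] at h1
    exact h1 ⟨0, Ex_zero k⟩
  obtain ⟨s, hs⟩ := Nat.exists_eq_succ_of_ne_zero hc0
  have h2 : ∃ m, Ex k m s := by
    by_contra h
    have := Nat.find_min' hex h
    omega
  obtain ⟨m0, hm0⟩ := h2
  have hE : Ex k (max m0 1) s := hm0.mono (le_max_left _ _) le_rfl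
  obtain ⟨w, hw⟩ := no_good k (max m0 1) s hk (le_max_right _ _) (by omega)
  apply h1
  refine ⟨max w (max m0 1), ?_⟩
  intro ι R _ _ _ b W hW hcard
  rw [max_le_iff] at hcard
  by_contra hlt
  refine hw (b := b) (W := W) ⟨hW, le_max_right _ _, fun U hU hUc => ?_⟩
    ⟨Finset.Subset.refl _, hcard.2, ?_⟩ hcard.1
  · exact hE ι R b U (hW.mono hU) hUc
  · omega

end

end Pool.Agent.Helper13.NC
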