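import Pool.Agent.Helper13.NC.Basic

/-!
# Peeling: disjoint paths
-/

set_option autoImplicit false
set_option linter.unusedSectionVars false

open Finset

namespace Pool.Agent.Helper13.NC

noncomputable section

variable {ι R : Type} [DecidableEq ι] [Fintype R] [DecidableEq R] {b : R → ι → ℝ}
variable {k n0 s : ℕ} {W : Finset ι} [Nonempty ι]

/-- Two firing lists which start with different tight rows and do not fire the other tight rows
do not interfere. -/
theorem lemmaE (hC : Ctx k n0 s b W) {V : Finset ι} (hV : Good n0 s b W V) {r1 r2 : R}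
    (hne : r1 ≠ r2) {L1 L2 : List R} {X1 X2 : Finset ι} (h1 : Fire b L1 V X1)
    (a1 : ∀ ρ ∈ L1, ρ ∈ K b V → ρ = r1) (h2 : Fire b L2 V X2)
    (a2 : ∀ ρ ∈ L2, ρ ∈ K b V → ρ = r2) (hX : n0 ≤ (X1 ∩ X2).card) :
    X1 ∪ X2 = V ∧ ∀ ρ ∈ L1, ρ ∉ L2 := by
  induction L1 using List.reverseRecOn generalizing X1 L2 X2 with
  | nil =>
    cases h1
    exact ⟨Finset.union_eq_left.mpr h2.subset, fun ρ h => absurd h (by simp)⟩
  | append_singleton L ρ ih =>
    obtain ⟨Y, hY, hρ, rfl⟩ := h1.snoc
    have hYsub : mv b ρ Y ⊆ Y := mv_subset _ _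
    have hin : mv b ρ Y ∩ X2 ⊆ Y ∩ X2 := Finset.inter_subset_inter_right hYsub
    have hYX : n0 ≤ (Y ∩ X2).card := hX.trans (Finset.card_le_card hin)
    have aL : ∀ σ ∈ L, σ ∈ K b V → σ = r1 := fun σ hσ => a1 σ (by simp [hσ])
    have key := ih hY aL h2 a2 hYX
    have hρL : ρ ∉ L := by
      have := h1.nodup
      rw [List.nodup_append] at this
      intro h
      exact this.2.2 ρ h ρ (by simp) rfl
    have hgY : Good n0 s b W Y :=
      hY.good hV (hYX.trans (Finset.card_le_card Finset.inter_subset_left))
    -- the last row is not in `L2`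
    have hρ2 : ρ ∉ L2 := by
      intro hmem
      obtain ⟨M1, M2, rfl⟩ := List.append_of_mem hmem
      obtain ⟨Z, hZ, hZ2⟩ := h2.split
      cases hZ2 with
      | cons hρZ hZ3 =>
        have hX2Z : X2 ⊆ Z := hZ3.subset.trans (mv_subset _ _)
        have hYZ : n0 ≤ (Y ∩ Z).card :=
          hYX.trans (Finset.card_le_card (Finset.inter_subset_inter_left hX2Z))
        have key2 := ih hY aL hZ (fun σ hσ => a2 σ (by simp [hσ])) hYZ
        have hρM : ρ ∉ M1 := by
          have := h2.nodup
          rw [List.nodup_append] at this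
          intro h
          exact this.2.2 ρ h ρ (by simp) rfl
        have h3 := hY.merge hC hZ hV hYZ
        have h4 := h3.keep hC hgY hYZ hρ (fun h => hρM (List.diff_subset _ _ h))
        -- the support of `ρ` in `Y` is inside `Z`
        have h5 : sp b ρ Y ⊆ Z := by
          rw [← h4.2]
          exact (Finset.filter_subset _ _).trans Finset.inter_subset_right
        have h6 : sp b ρ V ⊆ Z := by
          intro i hi
          obtain ⟨hiV, hpos⟩ := Finset.mem_filter.mp hi
          rw [← key2.1, Finset.mem_union] at hiV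
          rcases hiV with h | h
          · exact h5 (Finset.mem_filter.mpr ⟨h, hpos⟩)
          · exact h
        have h7 : ρ ∈ K b V := by
          rw [mem_K, ← ps_eq_of_sp_subset ρ hZ.subset h6]
          exact mem_K.mp hρZ
        have e1 := a1 ρ (by simp) h7
        have e2 := a2 ρ (by simp) h7
        exact hne (e1.symm.trans e2)
    constructor
    · have h3 := hY.merge hC h2 hV hYX
      have h4 := h3.keep hC hgY hYX hρ (fun h => hρ2 (List.diff_subset _ _ h))
      have h5 : pk (sp b ρ Y) ∈ X2 := by
        have h6 : pk (sp b ρ Y) ∈ sp b ρ (Y ∩ X2) := by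
          rw [h4.2]
          exact pk_sp_mem hρ
        exact (Finset.mem_inter.mp (Finset.mem_filter.mp h6).1).2
      refine le_antisymm ?_ ?_
      · rw [← key.1]
        exact Finset.union_subset_union hYsub (Finset.Subset.refl _)
      · intro i hi
        rw [← key.1, Finset.mem_union] at hi
        rw [Finset.mem_union]
        rcases hi with h | h
        · by_cases hi2 : i = pk (sp b ρ Y)
          · right; rw [hi2]; exact h5
          · left; exact Finset.mem_erase.mpr ⟨hi2, h⟩
        · exact Or.inr h
    · intro σ hσ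
      rw [List.mem_append, List.mem_singleton] at hσ
      rcases hσ with h | rfl
      · exact key.2 σ h
      · exact hρ2

/-- Stage 1: the number of tight rows drops on some large good subset. -/
theorem stage1 (hC : Ctx k n0 s b W) {U : Finset ι} (hU : Good n0 s b W U)
    (hbig : 3 * n0 + 6 ≤ U.card) :
    ∃ X, Good n0 s b W X ∧ X ⊆ U ∧ 2 * U.card ≤ 3 * X.card ∧ (K b X).card < (K b U).card := by
  by_contra hcon
  push Not at hcon
  set J := U.card / 3 + 1 with hJ
  have ext : ∀ r ∈ K b U, ∀ l ≤ J, ∃ L X, Fire b L U X ∧ L.length = l ∧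
      ∀ ρ ∈ L, ρ ∈ K b U → ρ = r := by
    intro r hr l
    induction l with
    | zero => intro _; exact ⟨[], U, Fire.nil U, rfl, by simp⟩
    | succ l ih =>
      intro hl
      obtain ⟨L, X, hL, hlen, hav⟩ := ih (by omega)
      have hcard := hL.card
      have hX : n0 ≤ X.card := by omega
      have hgX := hL.good hU hX
      have h1 := hcon X hgX hL.subset (by omega)
      have h2 : (K b U).erase r ⊆ K b X := by
        intro q hq
        rw [Finset.mem_erase] at hq
        exact (hL.keep hC hU hX hq.2 (fun h => hq.1 (hav q h hq.2))).1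
      have h3 : ¬ K b X ⊆ (K b U).erase r := by
        intro h
        have h4 := Finset.card_le_card h
        rw [Finset.card_erase_of_mem hr] at h4
        have h5 : 0 < (K b U).card := Finset.card_pos.mpr ⟨r, hr⟩
        omega
      obtain ⟨ρ, hρ, hρ'⟩ := Finset.not_subset.mp h3
      refine ⟨L ++ [ρ], mv b ρ X, hL.append (Fire.cons hρ (Fire.nil _)), by simp [hlen], ?_⟩
      intro σ hσ hσU
      rw [List.mem_append, List.mem_singleton] at hσ
      rcases hσ with h | rfl
      · exact hav σ h hσU
      · by_contra hne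
        exact hρ' (Finset.mem_erase.mpr ⟨hne, hσU⟩)
  have hUne : U.Nonempty := Finset.card_pos.mp (by omega)
  have h3 := hC.cov.pos U hU.sub hUne
  obtain ⟨T, hT, hT3⟩ := Finset.exists_subset_card_eq h3
  obtain ⟨r1, r2, r3, h12, h13, h23, rfl⟩ := Finset.card_eq_three.mp hT3
  have m1 : r1 ∈ K b U := hT (by simp)
  have m2 : r2 ∈ K b U := hT (by simp)
  have m3 : r3 ∈ K b U := hT (by simp)
  obtain ⟨L1, X1, f1, l1, a1⟩ := ext r1 m1 J le_rfl
  obtain ⟨L2, X2, f2, l2, a2⟩ := ext r2 m2 J le_rfl
  obtain ⟨L3, X3, f3, l3, a3⟩ := ext r3 m3 J le_rfl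
  have c1 := f1.card
  have c2 := f2.card
  have c3 := f3.card
  have inter : ∀ {X Y : Finset ι}, X ⊆ U → Y ⊆ U → X.card + J = U.card → Y.card + J = U.card →
      n0 ≤ (X ∩ Y).card := by
    intro X Y hX hY h1 h2
    have h4 := Finset.card_union_add_card_inter X Y
    have h5 : (X ∪ Y).card ≤ U.card := Finset.card_le_card (Finset.union_subset hX hY)
    omega
  have e12 := (lemmaE hC hU h12 f1 a1 f2 a2
    (inter f1.subset f2.subset (by omega) (by omega))).1
  have e13 := (lemmaE hC hU h13 f1 a1 f3 a3
    (inter f1.subset f3.subset (by omega) (by omega))).1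
  have e23 := (lemmaE hC hU h23 f2 a2 f3 a3
    (inter f2.subset f3.subset (by omega) (by omega))).1
  -- the complements are pairwise disjoint
  have d12 : Disjoint (U \ X1) (U \ X2) := by
    rw [Finset.disjoint_left]
    intro i hi hi'
    rw [Finset.mem_sdiff] at hi hi'
    have := hi.1
    rw [← e12, Finset.mem_union] at this
    tauto
  have d13 : Disjoint (U \ X1) (U \ X3) := by
    rw [Finset.disjoint_left]
    intro i hi hi'
    rw [Finset.mem_sdiff] at hi hi'
    have := hi.1
    rw [← e13, Finset.mem_union] at this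
    tauto
  have d23 : Disjoint (U \ X2) (U \ X3) := by
    rw [Finset.disjoint_left]
    intro i hi hi'
    rw [Finset.mem_sdiff] at hi hi'
    have := hi.1
    rw [← e23, Finset.mem_union] at this
    tauto
  have hsub : ((U \ X1) ∪ (U \ X2)) ∪ (U \ X3) ⊆ U := by
    refine Finset.union_subset (Finset.union_subset ?_ ?_) ?_ <;> exact Finset.sdiff_subset
  have h4 := Finset.card_le_card hsub
  rw [Finset.card_union_of_disjoint (Finset.disjoint_union_left.mpr ⟨d13, d23⟩),
    Finset.card_union_of_disjoint d12, Finset.card_sdiff_of_subset f1.subset,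
    Finset.card_sdiff_of_subset f2.subset, Finset.card_sdiff_of_subset f3.subset] at h4
  omega

/-- bound for the size of good sets with few tight rows -/
def mP (n0 : ℕ) : ℕ → ℕ
  | 0 => 1
  | P + 1 => max (3 * n0 + 6) (2 * mP n0 P)

theorem mP_pos (n0 P : ℕ) : 1 ≤ mP n0 P := by
  cases P with
  | zero => exact le_rfl
  | succ P => exact le_trans (by omega) (le_max_left _ _)

theorem many_tight (hC : Ctx k n0 s b W) (P : ℕ) : ∀ {U : Finset ι}, Good n0 s b W U →
    mP n0 P ≤ U.card → P ≤ (K b U).card := by
  induction P with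
  | zero => intro U _ _; exact Nat.zero_le _
  | succ P ih =>
    intro U hU hm
    rw [mP, max_le_iff] at hm
    by_contra hcon
    push Not at hcon
    obtain ⟨X, hX, -, h2, h3⟩ := stage1 hC hU hm.1
    have h4 := ih hX (by omega)
    omega

end

end Pool.Agent.Helper13.NC
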