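import Mathlib

/-!
# The sunflower lemma
-/

set_option autoImplicit false

open Finset

namespace Pool.Agent.Helper13.NC

theorem sunflower (m t : ℕ) : ∃ P : ℕ, ∀ {ι R : Type} [DecidableEq ι] [DecidableEq R]
    (Y : Finset R) (A : R → Finset ι), (∀ y ∈ Y, (A y).card ≤ m) → P ≤ Y.card →
    ∃ Y' ⊆ Y, Y'.card = t ∧ ∃ C : Finset ι, ∀ y ∈ Y', ∀ y' ∈ Y', y ≠ y' → A y ∩ A y' = C := by
  induction m with
  | zero =>
    refine ⟨t, ?_⟩
    intro ι R _ _ Y A hA hY
    obtain ⟨Y', hY', hc⟩ := Finset.exists_subset_card_eq hY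
    refine ⟨Y', hY', hc, ∅, fun y hy y' _ _ => ?_⟩
    have : A y = ∅ := Finset.card_eq_zero.mp (Nat.le_zero.mp (hA y (hY' hy)))
    rw [this, Finset.empty_inter]
  | succ m ih =>
    obtain ⟨P, hP⟩ := ih
    refine ⟨t * (m + 1) * P + t + 1, ?_⟩
    intro ι R _ _ Y A hA hY
    -- a maximal pairwise disjoint subfamily
    set F := Y.powerset.filter (fun Z => ∀ y ∈ Z, ∀ y' ∈ Z, y ≠ y' → A y ∩ A y' = ∅) with hF
    have hFne : F.Nonempty := ⟨∅, by simp [hF]⟩
    obtain ⟨Z, hZF, hZmax⟩ := Finset.exists_max_image F Finset.card hFne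
    rw [hF, Finset.mem_filter, Finset.mem_powerset] at hZF
    by_cases hZt : t ≤ Z.card
    · obtain ⟨Y', hY', hc⟩ := Finset.exists_subset_card_eq hZt
      exact ⟨Y', hY'.trans hZF.1, hc, ∅, fun y hy y' hy' hne => hZF.2 y (hY' hy) y' (hY' hy') hne⟩
    · push Not at hZt
      set S := Z.biUnion A with hS
      have hScard : S.card ≤ t * (m + 1) := by
        refine Finset.card_biUnion_le.trans ?_
        refine (Finset.sum_le_card_nsmul Z _ (m + 1) fun y hy => hA y (hZF.1 hy)).trans ?_
        rw [smul_eq_mul]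
        exact Nat.mul_le_mul hZt.le le_rfl
      have hmeet : ∀ y ∈ Y \ Z, ∃ i ∈ S, i ∈ A y := by
        intro y hy
        rw [Finset.mem_sdiff] at hy
        by_contra hcon
        push Not at hcon
        have h1 : insert y Z ∈ F := by
          rw [hF, Finset.mem_filter, Finset.mem_powerset]
          refine ⟨Finset.insert_subset hy.1 hZF.1, ?_⟩
          have key : ∀ z ∈ Z, A y ∩ A z = ∅ := by
            intro z hz
            rw [Finset.eq_empty_iff_forall_notMem]
            intro i hi
            rw [Finset.mem_inter] at hi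
            exact hcon i (Finset.mem_biUnion.mpr ⟨z, hz, hi.2⟩) hi.1
          intro u hu v hv huv
          rw [Finset.mem_insert] at hu hv
          rcases hu with rfl | hu <;> rcases hv with rfl | hv
          · exact absurd rfl huv
          · exact key v hv
          · rw [Finset.inter_comm]; exact key u hu
          · exact hZF.2 u hu v hv huv
        have h2 := hZmax _ h1
        rw [Finset.card_insert_of_notMem hy.2] at h2
        omega
      -- pigeonhole
      have hcard : t * (m + 1) * P < (Y \ Z).card := by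
        rw [Finset.card_sdiff_of_subset hZF.1]
        omega
      have hex : ∀ y, ∃ i, y ∈ Y \ Z → i ∈ S ∧ i ∈ A y := by
        intro y
        by_cases hy : y ∈ Y \ Z
        · obtain ⟨i, h1, h2⟩ := hmeet y hy
          exact ⟨i, fun _ => ⟨h1, h2⟩⟩
        · have hne : (Y \ Z).Nonempty := Finset.card_pos.mp (by omega)
          obtain ⟨y0, hy0⟩ := hne
          obtain ⟨i, -, -⟩ := hmeet y0 hy0
          exact ⟨i, fun h => absurd h hy⟩
      choose f hf using hex
      obtain ⟨i, hiS, hi⟩ := Finset.exists_lt_card_fiber_of_mul_lt_card_of_maps_to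
        (s := Y \ Z) (t := S) (f := f) (n := P) (fun y hy => (hf y hy).1)
        (lt_of_le_of_lt (Nat.mul_le_mul hScard le_rfl) hcard)
      set Q := (Y \ Z).filter (fun y => f y = i) with hQ
      have hQmem : ∀ y ∈ Q, y ∈ Y ∧ i ∈ A y := by
        intro y hy
        rw [hQ, Finset.mem_filter] at hy
        refine ⟨(Finset.mem_sdiff.mp hy.1).1, ?_⟩
        rw [← hy.2]
        exact (hf y hy.1).2
      obtain ⟨Y', hY', hc, C, hC⟩ := hP Q (fun y => (A y).erase i) (by
        intro y hy
        rw [Finset.card_erase_of_mem (hQmem y hy).2]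
        have := hA y (hQmem y hy).1
        omega) hi.le
      refine ⟨Y', fun y hy => (hQmem y (hY' hy)).1, hc, insert i C, ?_⟩
      intro y hy y' hy' hne
      rw [← hC y hy y' hy' hne]
      ext j
      have hi1 := (hQmem y (hY' hy)).2
      have hi2 := (hQmem y' (hY' hy')).2
      simp only [Finset.mem_inter, Finset.mem_insert, Finset.mem_erase]
      by_cases hj : j = i
      · subst hj; simp [hi1, hi2]
      · simp [hj]

end Pool.Agent.Helper13.NC
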