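import Pool.Agent.Helper13.NC.Paths
import Pool.Agent.Helper13.NC.Sun

/-!
# Peeling: minimal reachable sets
-/

set_option autoImplicit false
set_option linter.unusedSectionVars false

open Finset

namespace Pool.Agent.Helper13.NC

noncomputable section

variable {ι R : Type} [DecidableEq ι] [Fintype R] [DecidableEq R] {b : R → ι → ℝ}
variable {k n0 s : ℕ} {W : Finset ι} [Nonempty ι]

/-- `X` is obtained from `V` by firing rows outside `T` -/
def Rch (b : R → ι → ℝ) (T : Finset R) (V X : Finset ι) : Prop :=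
  ∃ L, Fire b L V X ∧ ∀ ρ ∈ L, ρ ∉ T

theorem Rch.subset {T : Finset R} {V X : Finset ι} (h : Rch b T V X) : X ⊆ V := by
  obtain ⟨L, h1, -⟩ := h
  exact h1.subset

theorem Rch.mono {T T' : Finset R} {V X : Finset ι} (h : Rch b T V X) (hT : T' ⊆ T) :
    Rch b T' V X := by
  obtain ⟨L, h1, h2⟩ := h
  exact ⟨L, h1, fun ρ hρ h => h2 ρ hρ (hT h)⟩

/-- the canonical elements of distinct tight rows are distinct -/
theorem pk_inj (hC : Ctx k n0 s b W) {U : Finset ι} (hU : Good n0 s b W U) (hbig : n0 < U.card)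
    {T : Finset R} (hT : T ⊆ K b U) : (T.image (fun r => pk (sp b r U))).card = T.card := by
  refine Finset.card_image_of_injOn ?_
  intro r hr r' hr' h
  by_contra hne
  have h1 := disj hC hU hbig hne (hT hr) (hT hr') (pk_sp_mem (hT hr))
  have h2 : pk (sp b r U) = pk (sp b r' U) := h
  rw [h2] at h1
  exact h1 (pk_sp_mem (hT hr'))

/-- firing rows outside `T` keeps at least `|T|` elements and keeps the rows of `T` tight -/
theorem Fire.big (hC : Ctx k n0 s b W) {L : List R} {U X : Finset ι} (h : Fire b L U X)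
    (hU : Good n0 s b W U) (hbig : n0 < U.card) {T : Finset R} (hT : T ⊆ K b U)
    (hTc : n0 < T.card) (hL : ∀ ρ ∈ L, ρ ∉ T) :
    n0 < X.card ∧ T ⊆ K b X ∧ ∀ r ∈ T, sp b r X = sp b r U := by
  induction h with
  | nil U => exact ⟨hbig, hT, fun r _ => rfl⟩
  | @cons q L U X hq h ih =>
    have hqT : q ∉ T := hL q (by simp)
    have h1 : T.image (fun r => pk (sp b r U)) ⊆ mv b q U := by
      intro i hi
      obtain ⟨r, hr, rfl⟩ := Finset.mem_image.mp hi
      have hne : r ≠ q := by rintro rfl; exact hqT hr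
      rw [mv, Finset.mem_erase]
      refine ⟨fun h2 => ?_, pk_sp_mem' (hT hr)⟩
      have h3 := disj hC hU hbig hne (hT hr) hq (pk_sp_mem (hT hr))
      rw [h2] at h3
      exact h3 (pk_sp_mem hq)
    have h2 := Finset.card_le_card h1
    rw [pk_inj hC hU hbig hT] at h2
    have h3 : T ⊆ K b (mv b q U) := by
      intro r hr
      exact (Pool.Agent.Helper13.NC.keep hC hU hbig (by rintro rfl; exact hqT hr) (hT hr) hq).1
    have h4 := ih (hU.erase hbig hq (pk_sp_mem hq)) (by omega) h3
      (fun ρ hρ => hL ρ (by simp [hρ]))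
    refine ⟨h4.1, h4.2.1, fun r hr => (h4.2.2 r hr).trans ?_⟩
    exact (Pool.Agent.Helper13.NC.keep hC hU hbig (by rintro rfl; exact hqT hr) (hT hr) hq).2

theorem Rch.big (hC : Ctx k n0 s b W) {U X : Finset ι} {T : Finset R} (h : Rch b T U X)
    (hU : Good n0 s b W U) (hbig : n0 < U.card) (hT : T ⊆ K b U) (hTc : n0 < T.card) :
    n0 < X.card ∧ T ⊆ K b X ∧ ∀ r ∈ T, sp b r X = sp b r U := by
  obtain ⟨L, h1, h2⟩ := h
  exact h1.big hC hU hbig hT hTc h2

theorem Rch.good (hC : Ctx k n0 s b W) {U X : Finset ι} {T : Finset R} (h : Rch b T U X)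
    (hU : Good n0 s b W U) (hbig : n0 < U.card) (hT : T ⊆ K b U) (hTc : n0 < T.card) :
    Good n0 s b W X := by
  have h3 := h.big hC hU hbig hT hTc
  obtain ⟨L, h1, h2⟩ := h
  exact h1.good hU h3.1.le

/-- two sets reachable from `U` avoiding `T` have a big intersection -/
theorem Rch.inter_big (hC : Ctx k n0 s b W) {U X Y : Finset ι} {T : Finset R} (h : Rch b T U X)
    (h' : Rch b T U Y) (hU : Good n0 s b W U) (hbig : n0 < U.card) (hT : T ⊆ K b U)
    (hTc : n0 < T.card) : n0 < (X ∩ Y).card := by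
  have h1 : T.image (fun r => pk (sp b r U)) ⊆ X ∩ Y := by
    intro i hi
    obtain ⟨r, hr, rfl⟩ := Finset.mem_image.mp hi
    have h2 := pk_sp_mem (b := b) (hT hr)
    rw [Finset.mem_inter]
    constructor
    · have h3 := (h.big hC hU hbig hT hTc).2.2 r hr
      have h4 : pk (sp b r U) ∈ sp b r X := by rw [h3]; exact h2
      exact (Finset.mem_filter.mp h4).1
    · have h3 := (h'.big hC hU hbig hT hTc).2.2 r hr
      have h4 : pk (sp b r U) ∈ sp b r Y := by rw [h3]; exact h2
      exact (Finset.mem_filter.mp h4).1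
  have h2 := Finset.card_le_card h1
  rw [pk_inj hC hU hbig hT] at h2
  omega

theorem Rch.inter (hC : Ctx k n0 s b W) {U X Y : Finset ι} {T : Finset R} (h : Rch b T U X)
    (h' : Rch b T U Y) (hU : Good n0 s b W U) (hbig : n0 < U.card) (hT : T ⊆ K b U)
    (hTc : n0 < T.card) : Rch b T U (X ∩ Y) := by
  have h1 := h.inter_big hC h' hU hbig hT hTc
  obtain ⟨L, a1, a2⟩ := h
  obtain ⟨L', b1, b2⟩ := h'
  refine ⟨L ++ L'.diff L, a1.append (a1.merge hC b1 hU h1.le), ?_⟩
  intro ρ hρ
  rw [List.mem_append] at hρ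
  rcases hρ with h | h
  · exact a2 ρ h
  · exact b2 ρ (List.diff_subset _ _ h)

/-- the minimal reachable set -/
theorem exists_min (hC : Ctx k n0 s b W) {U : Finset ι} {T : Finset R}
    (hU : Good n0 s b W U) (hbig : n0 < U.card) (hT : T ⊆ K b U) (hTc : n0 < T.card) :
    ∃ M, Rch b T U M ∧ (∀ X, Rch b T U X → M ⊆ X) ∧ K b M = T := by
  classical
  have hex : ∃ n, ∃ X, Rch b T U X ∧ X.card = n := ⟨_, U, ⟨[], Fire.nil U, by simp⟩, rfl⟩
  obtain ⟨M, hM, hc⟩ := Nat.find_spec hex
  have hmin : ∀ X, Rch b T U X → M.card ≤ X.card := by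
    intro X hX
    rw [hc]
    exact Nat.find_min' hex ⟨X, hX, rfl⟩
  refine ⟨M, hM, ?_, ?_⟩
  · intro X hX
    have h1 := hM.inter hC hX hU hbig hT hTc
    have h2 : M ∩ X = M := Finset.eq_of_subset_of_card_le Finset.inter_subset_left (hmin _ h1)
    exact Finset.inter_eq_left.mp h2
  · refine le_antisymm ?_ (hM.big hC hU hbig hT hTc).2.1
    intro ρ hρ
    by_contra hρT
    obtain ⟨L, a1, a2⟩ := hM
    have h1 : Rch b T U (mv b ρ M) := by
      refine ⟨L ++ [ρ], a1.append (Fire.cons hρ (Fire.nil _)), ?_⟩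
      intro σ hσ
      rw [List.mem_append, List.mem_singleton] at hσ
      rcases hσ with h | rfl
      · exact a2 σ h
      · exact hρT
    have h2 := hmin _ h1
    have h3 := card_mv hρ
    omega

open Classical in
/-- the minimal set reachable avoiding `T` -/
def M (b : R → ι → ℝ) (U : Finset ι) (T : Finset R) : Finset ι :=
  if h : ∃ M, Rch b T U M ∧ (∀ X, Rch b T U X → M ⊆ X) ∧ K b M = T then h.choose else ∅

theorem M_spec (hC : Ctx k n0 s b W) {U : Finset ι} {T : Finset R}
    (hU : Good n0 s b W U) (hbig : n0 < U.card) (hT : T ⊆ K b U) (hTc : n0 < T.card) :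
    Rch b T U (M b U T) ∧ (∀ X, Rch b T U X → M b U T ⊆ X) ∧
      K b (M b U T) = T := by
  have h := exists_min hC hU hbig hT hTc
  rw [M, dif_pos h]
  exact h.choose_spec

theorem M_mono (hC : Ctx k n0 s b W) {U : Finset ι} {T T' : Finset R}
    (hU : Good n0 s b W U) (hbig : n0 < U.card) (hT : T ⊆ K b U) (hT' : T' ⊆ T)
    (hTc : n0 < T'.card) : M b U T' ⊆ M b U T := by
  have h1 := M_spec hC hU hbig hT (hTc.trans_le (Finset.card_le_card hT'))
  exact (M_spec hC hU hbig (hT'.trans hT) hTc).2.1 _ (h1.1.mono hT')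

/-- the list leading from `M T` to `M (T.erase y)` -/
theorem exists_list (hC : Ctx k n0 s b W) {U : Finset ι} {T : Finset R}
    (hU : Good n0 s b W U) (hbig : n0 < U.card) (hT : T ⊆ K b U) {y : R}
    (hTc : n0 + 1 < T.card) :
    ∃ L, Fire b L (M b U T) (M b U (T.erase y)) ∧
      ∀ ρ ∈ L, ρ ∈ K b (M b U T) → ρ = y := by
  have hc : n0 < (T.erase y).card := by
    have := Finset.pred_card_le_card_erase (s := T) (a := y)
    omega
  have hsub : T.erase y ⊆ T := Finset.erase_subset _ _
  have h1 := M_spec hC hU hbig hT (by omega)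
  have h2 := M_spec hC hU hbig (hsub.trans hT) hc
  have h3 := M_mono hC hU hbig hT hsub hc
  obtain ⟨L, a1, a2⟩ := h1.1
  obtain ⟨L', b1, b2⟩ := h2.1
  have h4 := (h2.1.good hC hU hbig (hsub.trans hT) hc).big
  have h5 : M b U T ∩ M b U (T.erase y) = M b U (T.erase y) :=
    Finset.inter_eq_right.mpr h3
  have h6 := a1.merge hC b1 hU (by rw [h5]; exact h4)
  rw [h5] at h6
  refine ⟨_, h6, ?_⟩
  intro ρ hρ hK
  rw [h1.2.2] at hK
  by_contra hne
  exact b2 ρ (List.diff_subset _ _ hρ) (Finset.mem_erase.mpr ⟨hne, hK⟩)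

theorem union_two (hC : Ctx k n0 s b W) {U : Finset ι} {T : Finset R}
    (hU : Good n0 s b W U) (hbig : n0 < U.card) (hT : T ⊆ K b U) {y y' : R} (hne : y ≠ y')
    (hy : y ∈ T) (hy' : y' ∈ T) (hTc : n0 + 2 < T.card) :
    M b U T ⊆ M b U (T.erase y) ∪ M b U (T.erase y') := by
  obtain ⟨L1, a1, a2⟩ := exists_list hC hU hbig hT (y := y) (by omega)
  obtain ⟨L2, b1, b2⟩ := exists_list hC hU hbig hT (y := y') (by omega)
  have hM := M_spec hC hU hbig hT (by omega)
  have c1 : n0 < ((T.erase y).erase y').card := by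
    rw [Finset.card_erase_of_mem (Finset.mem_erase.mpr ⟨hne.symm, hy'⟩),
      Finset.card_erase_of_mem hy]
    omega
  have s1 : (T.erase y).erase y' ⊆ T.erase y := Finset.erase_subset _ _
  have s2 : (T.erase y).erase y' ⊆ T.erase y' := by
    rw [Finset.erase_right_comm]; exact Finset.erase_subset _ _
  have r1 := (M_spec hC hU hbig ((Finset.erase_subset y T).trans hT)
    (c1.trans_le (Finset.card_le_card s1))).1.mono s1
  have r2 := (M_spec hC hU hbig ((Finset.erase_subset y' T).trans hT)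
    (c1.trans_le (Finset.card_le_card s2))).1.mono s2
  have h3 := r1.inter_big hC r2 hU hbig ((s1.trans (Finset.erase_subset y T)).trans hT) c1
  exact (lemmaE hC (hM.1.good hC hU hbig hT (by omega)) hne a1 a2 b1 b2 h3.le).1.ge

theorem union_all (hC : Ctx k n0 s b W) {U : Finset ι} {T0 : Finset R}
    (hU : Good n0 s b W U) (hbig : n0 < U.card) (hT0 : T0 ⊆ K b U) (hTc : n0 < T0.card) :
    ∀ (n : ℕ) (Y : Finset R), Y.card = n + 1 → Y ⊆ K b U → Disjoint T0 Y →
      M b U (T0 ∪ Y) = Y.biUnion (fun y => M b U (insert y T0)) := by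
  intro n
  induction n with
  | zero =>
    intro Y hY _ _
    obtain ⟨y, rfl⟩ := Finset.card_eq_one.mp hY
    rw [Finset.singleton_biUnion]
    congr 1
    ext z
    simp
  | succ n ih =>
    intro Y hY hYK hdis
    have hsubK : T0 ∪ Y ⊆ K b U := Finset.union_subset hT0 hYK
    refine le_antisymm ?_ ?_
    · obtain ⟨y, hy, y', hy', hne⟩ := Finset.one_lt_card.mp (show 1 < Y.card by omega)
      have hcard : (T0 ∪ Y).card = T0.card + Y.card := Finset.card_union_of_disjoint hdis
      have h1 := union_two hC hU hbig hsubK hne (Finset.mem_union_right _ hy)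
        (Finset.mem_union_right _ hy') (by omega)
      have e : ∀ z ∈ Y, (T0 ∪ Y).erase z = T0 ∪ Y.erase z := by
        intro z hz
        rw [Finset.erase_union_distrib, Finset.erase_eq_of_notMem
          (fun h => Finset.disjoint_left.mp hdis h hz)]
      rw [e y hy, e y' hy'] at h1
      have g : ∀ z ∈ Y, M b U (T0 ∪ Y.erase z) ⊆
          Y.biUnion (fun y => M b U (insert y T0)) := by
        intro z hz
        rw [ih (Y.erase z) (by rw [Finset.card_erase_of_mem hz]; omega)
          ((Finset.erase_subset _ _).trans hYK)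
          (Finset.disjoint_of_subset_right (Finset.erase_subset _ _) hdis)]
        exact Finset.biUnion_subset_biUnion_of_subset_left _ (Finset.erase_subset _ _)
      exact h1.trans (Finset.union_subset (g y hy) (g y' hy'))
    · intro i hi
      obtain ⟨y, hy, hi⟩ := Finset.mem_biUnion.mp hi
      refine M_mono hC hU hbig hsubK ?_ ?_ hi
      · intro z hz
        rw [Finset.mem_insert] at hz
        rcases hz with rfl | hz
        · exact Finset.mem_union_right _ hy
        · exact Finset.mem_union_left _ hz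
      · exact hTc.trans_le (Finset.card_le_card (Finset.subset_insert _ _))

/-- the size of the minimal sets -/
theorem card_M (hC : Ctx k n0 s b W) {U : Finset ι} {T : Finset R}
    (hU : Good n0 s b W U) (hbig : n0 < U.card) (hT : T ⊆ K b U) (hTc : n0 < T.card) :
    (M b U T).card ≤ mP n0 (T.card + 1) := by
  by_contra hcon
  push Not at hcon
  have h1 := M_spec hC hU hbig hT hTc
  have h2 := many_tight hC (T.card + 1) (h1.1.good hC hU hbig hT hTc) hcon.le
  rw [h1.2.2] at h2
  omega

end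

end Pool.Agent.Helper13.NC
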