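import Pool.Agent.Helper13.NC.Reach

/-!
# Peeling: a good set on which all but boundedly many rows are (essentially) coordinate rows
-/

set_option autoImplicit false
set_option linter.unusedSectionVars false

open Finset

namespace Pool.Agent.Helper13.NC

noncomputable section

theorem exists_star (n0 t : ℕ) (ht : 2 ≤ t) : ∃ w : ℕ, ∀ {ι R : Type} [DecidableEq ι]
    [Fintype R] [DecidableEq R] [Nonempty ι] {b : R → ι → ℝ} {k s : ℕ} {W : Finset ι},
    Ctx k n0 s b W → Good n0 s b W W → w ≤ W.card →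
    ∃ G, Good n0 s b W G ∧ G.card ≤ mP n0 (n0 + 3) + t ∧ t ≤ G.card ∧
      ∃ Q ⊆ K b G, Q.card = t := by
  obtain ⟨P, hP⟩ := sunflower (mP n0 (n0 + 3)) t
  refine ⟨max (mP n0 (P + n0 + 1)) (n0 + 1), ?_⟩
  intro ι R _ _ _ _ b k s W hC hW hw
  rw [max_le_iff] at hw
  have hbig : n0 < W.card := hw.2
  have h1 := many_tight hC _ hW hw.1
  obtain ⟨T0, hT0, hT0c⟩ := Finset.exists_subset_card_eq (show n0 + 1 ≤ (K b W).card by omega)
  have hT0n : n0 < T0.card := by omega
  have hins : ∀ y ∈ K b W \ T0, insert y T0 ⊆ K b W ∧ (insert y T0).card = n0 + 2 := by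
    intro y hy
    rw [Finset.mem_sdiff] at hy
    exact ⟨Finset.insert_subset hy.1 hT0, by rw [Finset.card_insert_of_notMem hy.2, hT0c]⟩
  obtain ⟨Y, hYsub, hYc, C, hC'⟩ := hP (K b W \ T0) (fun y => M b W (insert y T0)) (by
    intro y hy
    have h2 := hins y hy
    have h3 := card_M hC hW hbig h2.1 (by rw [h2.2]; omega)
    rw [h2.2] at h3
    exact h3) (by
    rw [Finset.card_sdiff_of_subset hT0]
    omega)
  set A : R → Finset ι := fun y => M b W (insert y T0) with hA
  have hYK : Y ⊆ K b W := fun y hy => (Finset.mem_sdiff.mp (hYsub hy)).1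
  have hYT : ∀ y ∈ Y, y ∉ T0 := fun y hy => (Finset.mem_sdiff.mp (hYsub hy)).2
  have hdis : Disjoint T0 Y := Finset.disjoint_right.mpr hYT
  set T : Finset R := T0 ∪ Y with hT
  have hTK : T ⊆ K b W := Finset.union_subset hT0 hYK
  have hTcard : T.card = n0 + 1 + t := by
    rw [hT, Finset.card_union_of_disjoint hdis, hT0c, hYc]
  set V := M b W T with hV
  have hVspec := M_spec hC hW hbig hTK (by omega)
  have hVbig := (hVspec.1.big hC hW hbig hTK (by omega)).1
  have hVgood := hVspec.1.good hC hW hbig hTK (by omega)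
  have hKV : K b V = T := hVspec.2.2
  have hT0V : T0 ⊆ K b V := by rw [hKV]; exact Finset.subset_union_left
  have hVun : V = Y.biUnion A :=
    union_all hC hW hbig hT0 hT0n (t - 1) Y (by omega) hYK hdis
  have her : ∀ y ∈ Y, T.erase y = T0 ∪ Y.erase y := by
    intro z hz
    rw [hT, Finset.erase_union_distrib, Finset.erase_eq_of_notMem (hYT z hz)]
  have hVy : ∀ y ∈ Y, M b W (T.erase y) = (Y.erase y).biUnion A := by
    intro y hy
    rw [her y hy]
    exact union_all hC hW hbig hT0 hT0n (t - 2) (Y.erase y)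
      (by rw [Finset.card_erase_of_mem hy]; omega) ((Finset.erase_subset _ _).trans hYK)
      (Finset.disjoint_of_subset_right (Finset.erase_subset _ _) hdis)
  -- the lists
  have hlist : ∀ y, ∃ (L : List R) (ρ : R) (Z : Finset ι), y ∈ Y →
      Fire b L V Z ∧ ρ ∈ K b Z ∧ mv b ρ Z = M b W (T.erase y) ∧
      (∀ σ ∈ L ++ [ρ], σ ∈ K b V → σ = y) ∧ Fire b (L ++ [ρ]) V (M b W (T.erase y)) := by
    intro y
    by_cases hy : y ∈ Y
    · obtain ⟨L, a1, a2⟩ := exists_list hC hW hbig hTK (y := y) (by omega)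
      rcases L.eq_nil_or_concat with rfl | ⟨L', ρ, rfl⟩
      · exfalso
        have h3 := a1.card
        have h4 : V = M b W (T.erase y) :=
          (Finset.eq_of_subset_of_card_le a1.subset (by simp at h3; omega)).symm
        have h6 : y ∈ T := Finset.mem_union_right _ hy
        have h5 := (M_spec hC hW hbig ((Finset.erase_subset y T).trans hTK) (by
          rw [Finset.card_erase_of_mem h6]; omega)).2.2
        rw [← h4, hKV] at h5
        rw [h5] at h6
        exact Finset.notMem_erase y T h6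
      · rw [List.concat_eq_append] at a1 a2
        obtain ⟨Z, b1, b2, b3⟩ := a1.snoc
        exact ⟨L', ρ, Z, fun _ => ⟨b1, b2, b3.symm, a2, a1⟩⟩
    · exact ⟨[], y, ∅, fun h => absurd h hy⟩
  choose L ρ Z hLZ using hlist
  -- everything is reachable from `V` avoiding `T0`
  have hav : ∀ y ∈ Y, ∀ σ ∈ L y ++ [ρ y], σ ∉ T0 := by
    intro y hy σ hσ hσT
    have := (hLZ y hy).2.2.2.1 σ hσ (hT0V hσT)
    rw [this] at hσT
    exact hYT y hy hσT
  have rZ : ∀ y ∈ Y, Rch b T0 V (Z y) := fun y hy =>
    ⟨L y, (hLZ y hy).1, fun σ hσ => hav y hy σ (by simp [hσ])⟩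
  have rV : ∀ y ∈ Y, Rch b T0 V (M b W (T.erase y)) := fun y hy =>
    ⟨L y ++ [ρ y], (hLZ y hy).2.2.2.2, hav y hy⟩
  -- the lists are disjoint
  have hdisj : ∀ y ∈ Y, ∀ y' ∈ Y, y ≠ y' → ρ y ∉ L y' ++ [ρ y'] := by
    intro y hy y' hy' hne
    exact (lemmaE hC hVgood hne (hLZ y hy).2.2.2.2 (hLZ y hy).2.2.2.1 (hLZ y' hy').2.2.2.2
      (hLZ y' hy').2.2.2.1
      ((rV y hy).inter_big hC (rV y' hy') hVgood hVbig hT0V hT0n).le).2 _ (by simp)
  have hsubZ : ∀ y ∈ Y, M b W (T.erase y) ⊆ Z y := by
    intro y hy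
    rw [← (hLZ y hy).2.2.1]
    exact mv_subset _ _
  set G : Finset ι := V.filter (fun i => ∀ y ∈ Y, i ∈ Z y) with hG
  have rG : ∀ S ⊆ Y, Rch b T0 V (V.filter (fun i => ∀ y ∈ S, i ∈ Z y)) := by
    intro S
    induction S using Finset.induction_on with
    | empty =>
      intro _
      refine ⟨[], ?_, by simp⟩
      have : V.filter (fun i => ∀ y ∈ (∅ : Finset R), i ∈ Z y) = V := by
        apply Finset.filter_true_of_mem
        intro i _ y hy
        exact absurd hy (Finset.notMem_empty y)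
      rw [this]
      exact Fire.nil V
    | insert y S hyS ih =>
      intro hS
      have h2 := (ih ((Finset.subset_insert y S).trans hS)).inter hC
        (rZ y (hS (Finset.mem_insert_self y S))) hVgood hVbig hT0V hT0n
      have h3 : V.filter (fun i => ∀ z ∈ insert y S, i ∈ Z z) =
          V.filter (fun i => ∀ z ∈ S, i ∈ Z z) ∩ Z y := by
        ext i
        simp only [Finset.mem_filter, Finset.mem_inter, Finset.forall_mem_insert]
        tauto
      rw [h3]
      exact h2
  have rG' := rG Y (Finset.Subset.refl _)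
  have hGgood : Good n0 s b V G := rG'.good
    (⟨hC.cov.mono hVgood.sub, hC.one, fun U hU => hC.low U (hU.trans hVgood.sub)⟩)
    ⟨Finset.Subset.refl _, hVgood.big, hVgood.up⟩ hVbig hT0V hT0n
  have hGgood' : Good n0 s b W G := ⟨hGgood.sub.trans hVgood.sub, hGgood.big, hGgood.up⟩
  have hGbig : n0 < G.card := (rG'.big hC hVgood hVbig hT0V hT0n).1
  -- the rows `ρ y` are tight at `G`
  have hρG : ∀ y ∈ Y, ρ y ∈ K b G := by
    intro y hy
    have hsp : sp b (ρ y) (Z y) ⊆ G := by
      intro i hi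
      rw [hG, Finset.mem_filter]
      have hiZ : i ∈ Z y := (Finset.mem_filter.mp hi).1
      refine ⟨(hLZ y hy).1.subset hiZ, ?_⟩
      intro y' hy'
      rcases eq_or_ne y y' with rfl | hne
      · exact hiZ
      · have h2 := (rZ y hy).inter_big hC (rV y' hy') hVgood hVbig hT0V hT0n
        have h3 := (hLZ y hy).1.merge hC (hLZ y' hy').2.2.2.2 hVgood h2.le
        have h4 := h3.keep hC ((rZ y hy).good hC hVgood hVbig hT0V hT0n) h2.le (hLZ y hy).2.1
          (fun h => hdisj y hy y' hy' hne (List.diff_subset _ _ h))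
        rw [← h4.2] at hi
        exact hsubZ y' hy' (Finset.mem_inter.mp (Finset.mem_filter.mp hi).1).2
    have hGZ : G ⊆ Z y := fun i hi => (Finset.mem_filter.mp hi).2 y hy
    rw [mem_K, ps_eq_of_sp_subset (ρ y) hGZ hsp]
    exact mem_K.mp (hLZ y hy).2.1
  have hinj : (Y.image ρ).card = t := by
    rw [Finset.card_image_of_injOn, hYc]
    intro y hy y' hy' h
    by_contra hne
    have h2 : ρ y = ρ y' := h
    exact hdisj y hy y' hy' hne (by simp [h2])
  have hQ : Y.image ρ ⊆ K b G := by
    intro r hr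
    obtain ⟨y, hy, rfl⟩ := Finset.mem_image.mp hr
    exact hρG y hy
  refine ⟨G, hGgood', ?_, ?_, Y.image ρ, hQ, hinj⟩
  · -- the size of `G`
    have hsub : G ⊆ C ∪ Y.image (fun y => pk (sp b (ρ y) (Z y))) := by
      intro i hi
      rw [hG, Finset.mem_filter] at hi
      rw [Finset.mem_union]
      by_cases hiC : i ∈ C
      · exact Or.inl hiC
      · right
        rw [hVun, Finset.mem_biUnion] at hi
        obtain ⟨⟨y, hy, hiy⟩, hiZ⟩ := hi
        have h2 : i ∉ M b W (T.erase y) := by
          rw [hVy y hy]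
          intro h
          obtain ⟨y', hy', hiy'⟩ := Finset.mem_biUnion.mp h
          rw [Finset.mem_erase] at hy'
          apply hiC
          rw [← hC' y hy y' hy'.2 hy'.1.symm]
          exact Finset.mem_inter.mpr ⟨hiy, hiy'⟩
        have h3 := hiZ y hy
        rw [← (hLZ y hy).2.2.1, mv, Finset.mem_erase] at h2
        rw [Finset.mem_image]
        refine ⟨y, hy, ?_⟩
        by_contra h4
        exact h2 ⟨fun h => h4 h.symm, h3⟩
    have h2 := Finset.card_le_card hsub
    have h3 := Finset.card_union_le C (Y.image (fun y => pk (sp b (ρ y) (Z y))))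
    have h4 : (Y.image (fun y => pk (sp b (ρ y) (Z y)))).card ≤ t := by
      rw [← hYc]; exact Finset.card_image_le
    have h5 : C.card ≤ mP n0 (n0 + 3) := by
      obtain ⟨y, hy, y', hy', hne⟩ := Finset.one_lt_card.mp (show 1 < Y.card by omega)
      rw [← hC' y hy y' hy' hne]
      refine (Finset.card_le_card Finset.inter_subset_left).trans ?_
      have h6 := hins y (hYsub hy)
      have h7 := card_M hC hW hbig h6.1 (by rw [h6.2]; omega)
      rw [h6.2] at h7
      exact h7
    omega
  · have h2 : (Y.image ρ).image (fun r => pk (sp b r G)) ⊆ G := by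
      intro i hi
      obtain ⟨r, hr, rfl⟩ := Finset.mem_image.mp hi
      exact pk_sp_mem' (hQ hr)
    have h3 := Finset.card_le_card h2
    rw [pk_inj hC hGgood' hGbig hQ, hinj] at h3
    exact h3

end

end Pool.Agent.Helper13.NC
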